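import Pool.Agent.Y645.UP.Core

/-!
# From subvarieties to ideals and back, in `Y(1)^n`
-/

namespace Pool.Agent.Y645.UP

open MvPolynomial Module Pool.Agent.Y645.UL Pool.Agent.Y645.UM

variable {k J : Type} [Field k]

theorem vanp_prime_nonempty {A : Set (J → k)} (h : (vanp A).IsPrime) : A.Nonempty := by
  by_contra hA
  rw [Set.not_nonempty_iff_eq_empty] at hA
  refine h.ne_top ((Ideal.eq_top_iff_one _).2 ?_)
  intro x hx
  rw [hA] at hx
  exact absurd hx (Set.notMem_empty x)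

/-- the dimension of the smallest special subvariety containing `A` -/
noncomputable def spdP (D : Data k) (A : Set (J → k)) : ℤ :=
  (isoSetP (fun N y z => aeval ![y, z] (D.Φ N) = 0) D.C A : ℤ)

theorem spdP_eq [Fintype J] (hISO : S_ISOp) (D : Data k) {L : Type}
    [Field L] [Algebra k L] (x : J → L) (A : Set (J → k))
    (h : ∀ f : MvPolynomial J k, f ∈ vanp A ↔ aeval x f = 0) :
    spdP D A = (isoRk D x : ℤ) := by
  rw [spdP, hISO k L J D x A h]

theorem mem_vanp_singleton (p : J → k) (f : MvPolynomial J k) :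
    f ∈ vanp ({p} : Set (J → k)) ↔ aeval p f = 0 := by
  constructor
  · intro h
    exact h p rfl
  · intro h q hq
    rw [Set.mem_singleton_iff] at hq
    rw [hq]
    exact h

theorem isSubvarP_singleton (p : J → k) : IsSubvarP ({p} : Set (J → k)) := by
  refine ⟨⟨{f | eval p f = 0}, ?_⟩, ?_⟩
  · ext y
    constructor
    · intro hy f hf
      rw [Set.mem_singleton_iff] at hy
      rw [hy]
      exact hf
    · intro hy
      rw [Set.mem_singleton_iff]
      funext j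
      have h1 := hy (X j - C (p j)) (by simp)
      rw [map_sub, eval_X, eval_C, sub_eq_zero] at h1
      exact h1
  · have h1 : vanp ({p} : Set (J → k)) = RingHom.ker (eval p) := by
      ext f
      rw [RingHom.mem_ker, mem_vanp_singleton]
      rfl
    rw [h1]
    exact RingHom.ker_isPrime _

/-- the product of the surfaces -/
def gateP (k I₁ I₂ : Type) [Field k] : Set ((I₁ ⊕ I₂) × Fin 3 → k) :=
  {p | (∀ i, p (Sum.inl i, 0) + p (Sum.inl i, 1) = p (Sum.inl i, 2)) ∧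
    ∀ i, p (Sum.inr i, 0) * p (Sum.inr i, 1) = p (Sum.inr i, 2)}

theorem isClosedP_gate (k I₁ I₂ : Type) [Field k] : IsClosedP (gateP k I₁ I₂) := by
  refine ⟨Set.range (fun i : I₁ => (X (Sum.inl i, 0) + X (Sum.inl i, 1) - X (Sum.inl i, 2) :
    MvPolynomial ((I₁ ⊕ I₂) × Fin 3) k)) ∪
    Set.range (fun i : I₂ => (X (Sum.inr i, 0) * X (Sum.inr i, 1) - X (Sum.inr i, 2) :
      MvPolynomial ((I₁ ⊕ I₂) × Fin 3) k)), ?_⟩
  ext p
  constructor
  · rintro ⟨h1, h2⟩ _ (⟨i, rfl⟩ | ⟨i, rfl⟩)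
    · rw [map_sub, map_add, eval_X, eval_X, eval_X, h1 i, sub_self]
    · rw [map_sub, map_mul, eval_X, eval_X, eval_X, h2 i, sub_self]
  · intro h
    refine ⟨fun i => ?_, fun i => ?_⟩
    · have h1 := h _ (Or.inl ⟨i, rfl⟩)
      rw [map_sub, map_add, eval_X, eval_X, eval_X, sub_eq_zero] at h1
      exact h1
    · have h1 := h _ (Or.inr ⟨i, rfl⟩)
      rw [map_sub, map_mul, eval_X, eval_X, eval_X, sub_eq_zero] at h1
      exact h1

/-- a point which satisfies the equations of the gates is on the surfaces -/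
theorem onS_of_spp {I₁ I₂ L L' : Type} [Field L] [Algebra k L] [Field L'] [Algebra k L']
    {a : (I₁ ⊕ I₂) × Fin 3 → L} {a' : (I₁ ⊕ I₂) × Fin 3 → L'} (h : OnS a)
    (hs : Spp k a a') : OnS a' := by
  refine ⟨fun i => ?_, fun i => ?_⟩
  · have h1 := hs (X (Sum.inl i, 0) + X (Sum.inl i, 1) - X (Sum.inl i, 2)) (by
      rw [map_sub, map_add, aeval_X, aeval_X, aeval_X, h.1 i, sub_self])
    rw [map_sub, map_add, aeval_X, aeval_X, aeval_X, sub_eq_zero] at h1
    exact h1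
  · have h1 := hs (X (Sum.inr i, 0) * X (Sum.inr i, 1) - X (Sum.inr i, 2)) (by
      rw [map_sub, map_mul, aeval_X, aeval_X, aeval_X, h.2 i, sub_self])
    rw [map_sub, map_mul, aeval_X, aeval_X, aeval_X, sub_eq_zero] at h1
    exact h1

/-- The hypothesis on the points of the products of the surfaces. -/
def LPp (k : Type) [Field k] (D : Data k) : Prop :=
  ∀ (I₁ I₂ : Type) [Fintype I₁] [Fintype I₂],
    ∃ 𝒜 : Set (Set ((I₁ ⊕ I₂) × Fin 3 → k)), 𝒜.Finite ∧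
    (∀ A ∈ 𝒜, IsSubvarP A ∧ A ⊆ gateP k I₁ I₂ ∧
      spdP D A - (dimP A : ℤ) < (Fintype.card I₁ : ℤ) + (Fintype.card I₂ : ℤ)) ∧
    ∀ p ∈ gateP k I₁ I₂, spdP D {p} < (Fintype.card I₁ : ℤ) + (Fintype.card I₂ : ℤ) →
      ∃ A ∈ 𝒜, p ∈ A

theorem HHp_of_LPp (hDIM : S_DIMp) (hISO : S_ISOp) (hGEN : S_GENp)
    (hTOR : S_TORp) (k : Type) [Field k] [IsAlgClosed k] [CharZero k] (D : Data k) (hD : Good D)
    (h : LPp k D) : HHp k D := by
  classical
  intro I₁ I₂ _ _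
  obtain ⟨𝒜, hfin, h1, h2⟩ := h I₁ I₂
  refine ⟨vanp '' 𝒜, hfin.image _, ?_, ?_⟩
  · rintro _ ⟨A, hA, rfl⟩
    obtain ⟨hsub, hV, hdef⟩ := h1 A hA
    obtain ⟨F, hF1, hF2, a, ha⟩ := hGEN k ((I₁ ⊕ I₂) × Fin 3) (vanp A) hsub.2
    refine ⟨F, hF1, hF2, a, ?_, ?_, ha⟩
    · refine ⟨fun i => ?_, fun i => ?_⟩
      · have h3 : (X (Sum.inl i, 0) + X (Sum.inl i, 1) - X (Sum.inl i, 2) :
            MvPolynomial ((I₁ ⊕ I₂) × Fin 3) k) ∈ vanp A := by
          intro x hx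
          rw [map_sub, map_add, eval_X, eval_X, eval_X, (hV hx).1 i, sub_self]
        have h4 := (ha _).1 h3
        rw [map_sub, map_add, aeval_X, aeval_X, aeval_X, sub_eq_zero] at h4
        exact h4
      · have h3 : (X (Sum.inr i, 0) * X (Sum.inr i, 1) - X (Sum.inr i, 2) :
            MvPolynomial ((I₁ ⊕ I₂) × Fin 3) k) ∈ vanp A := by
          intro x hx
          rw [map_sub, map_mul, eval_X, eval_X, eval_X, (hV hx).2 i, sub_self]
        have h4 := (ha _).1 h3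
        rw [map_sub, map_mul, aeval_X, aeval_X, aeval_X, sub_eq_zero] at h4
        exact h4
    · have h3 := spdP_eq hISO D a A ha
      have h4 := hDIM k F ((I₁ ⊕ I₂) × Fin 3) a A ha
      omega
  · intro F _ _ a hab hlt
    by_contra hcon
    push Not at hcon
    choose! fp hfp1 hfp2 using hcon
    have hne : aeval a (∏ A ∈ hfin.toFinset, fp (vanp A)) ≠ 0 := by
      rw [map_prod]
      exact Finset.prod_ne_zero_iff.2 fun A hA => hfp2 _ ⟨A, hfin.mem_toFinset.1 hA, rfl⟩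
    obtain ⟨x, hx1, hx2, hx3⟩ := hTOR k F ((I₁ ⊕ I₂) × Fin 3) D hD a _ hne
    have hx : x ∈ gateP k I₁ I₂ := onS_of_spp hab hx1
    have hr : spdP D {x} < (Fintype.card I₁ : ℤ) + (Fintype.card I₂ : ℤ) := by
      have h5 := spdP_eq hISO D x {x} (mem_vanp_singleton x)
      omega
    obtain ⟨A, hA, hxA⟩ := h2 x hx hr
    refine hx2 ?_
    rw [map_prod]
    exact Finset.prod_eq_zero (hfin.mem_toFinset.2 hA) (hfp1 _ ⟨A, hA, rfl⟩ x hxA)

/-- Finiteness for a closed set. -/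
def FinDefP (D : Data k) (V : Set (J → k)) (δ : ℤ) : Prop :=
  ∃ 𝒜 : Set (Set (J → k)), 𝒜.Finite ∧
    (∀ A ∈ 𝒜, IsSubvarP A ∧ A ⊆ V ∧ spdP D A - (dimP A : ℤ) ≤ δ) ∧
    ∀ A, IsSubvarP A → A ⊆ V → spdP D A - (dimP A : ℤ) ≤ δ → ∃ A' ∈ 𝒜, A ⊆ A'

theorem FinDefP_of_AAp (hDIM : S_DIMp) (hISO : S_ISOp) (hGEN : S_GENp)
    (hNULL : S_NULLp) (k : Type) [Field k] [IsAlgClosed k] (D : Data k) (h : AAp k D)
    (J : Type) [Fintype J] (V : Set (J → k)) (δ : ℤ) (hV : IsClosedP V) : FinDefP D V δ := by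
  obtain ⟨S, hS⟩ := hV
  obtain ⟨Q, hQ, h1, h2⟩ := h J δ (vanp V)
  let Zq : Ideal (MvPolynomial J k) → Set (J → k) := fun q =>
    {p | ∀ f ∈ q, eval p f = 0}
  refine ⟨Zq '' Q, hQ.image _, ?_, ?_⟩
  · rintro _ ⟨q, hq, rfl⟩
    obtain ⟨hq1, L, hL1, hL2, x, hy1, hy2⟩ := h1 q hq
    have hZ : Zq q = ZZp k x := by
      ext p
      constructor
      · intro hp f hf
        exact hp f ((hy1 f).2 hf)
      · intro hp f hf
        exact hp f ((hy1 f).1 hf)
    have hv : ∀ f : MvPolynomial J k, f ∈ vanp (Zq q) ↔ aeval x f = 0 := by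
      intro f
      rw [hZ]
      exact hNULL k L J x f
    refine ⟨⟨⟨q, rfl⟩, ?_⟩, ?_, ?_⟩
    · have h3 : vanp (Zq q) = RingHom.ker (aeval x : MvPolynomial J k →ₐ[k] L) := by
        ext f
        rw [RingHom.mem_ker]
        exact hv f
      rw [h3]
      exact RingHom.ker_isPrime _
    · intro p hp
      rw [hS]
      intro f hf
      refine hp f (hq1 ?_)
      intro p' hp'
      rw [hS] at hp'
      exact hp' f hf
    · rw [spdP_eq hISO D x _ hv, hDIM k L J x _ hv]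
      exact hy2
  · intro A hA hAV hd
    obtain ⟨L, hL1, hL2, x, hy⟩ := hGEN k J (vanp A) hA.2
    obtain ⟨q, hq, hqA⟩ := h2 (vanp A) (fun f hf p hp => hf p (hAV hp))
      ⟨L, hL1, hL2, x, hy, by
        rw [← spdP_eq hISO D x A hy, ← hDIM k L J x A hy]; exact hd⟩
    exact ⟨Zq q, ⟨q, hq, rfl⟩, fun p hp f hf => hqA hf p hp⟩

theorem LPp_of_FinDefP {k : Type} [Field k] (D : Data k)
    (h : ∀ (I₁ I₂ : Type) [Fintype I₁] [Fintype I₂],
      FinDefP D (gateP k I₁ I₂) ((Fintype.card I₁ : ℤ) + (Fintype.card I₂ : ℤ) - 1)) :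
    LPp k D := by
  intro I₁ I₂ _ _
  obtain ⟨𝒜, h1, h2, h3⟩ := h I₁ I₂
  refine ⟨𝒜, h1, fun A hA => ?_, ?_⟩
  · obtain ⟨h4, h5, h6⟩ := h2 A hA
    exact ⟨h4, h5, by omega⟩
  · intro p hp hr
    obtain ⟨A, hA, hxA⟩ := h3 {p} (isSubvarP_singleton p) (Set.singleton_subset_iff.2 hp) (by
      omega)
    exact ⟨A, hA, hxA rfl⟩

end Pool.Agent.Y645.UP
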