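import Pool.Agent.Y645.UP.Stm
import Pool.Agent.Y645.UM.Aux1
import Pool.Agent.Y645.UL.Der

/-!
# The encoding in `Y(1)^n`
-/

namespace Pool.Agent.Y645.UP

open MvPolynomial Module Pool.Agent.Y645.UL Pool.Agent.Y645.UM

/-- Finiteness for the products of the surfaces, in terms of ideals and points. -/
def HHp (k : Type) [Field k] (D : Data k) : Prop :=
  ∀ (I₁ I₂ : Type) [Fintype I₁] [Fintype I₂],
    ∃ 𝒜 : Set (Ideal (MvPolynomial ((I₁ ⊕ I₂) × Fin 3) k)), 𝒜.Finite ∧
    (∀ p ∈ 𝒜, ∃ (F : Type) (_ : Field F) (_ : Algebra k F) (a : (I₁ ⊕ I₂) × Fin 3 → F), OnS a ∧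
      isoRk D a < Fintype.card I₁ + Fintype.card I₂ + td k a ∧ ∀ f, f ∈ p ↔ aeval a f = 0) ∧
    ∀ (F : Type) [Field F] [Algebra k F] (a : (I₁ ⊕ I₂) × Fin 3 → F), OnS a →
      isoRk D a < Fintype.card I₁ + Fintype.card I₂ + td k a → ∃ p ∈ 𝒜, ∀ f ∈ p, aeval a f = 0

section forms

variable {k L I₁ I₂ : Type} [Field k] [Field L] [Algebra k L]

/-- a coordinate as a linear form -/
noncomputable def prj (m : (I₁ ⊕ I₂) × Fin 3) : ((I₁ ⊕ I₂) × Fin 3 → L) →ₗ[L] L :=
  LinearMap.proj m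

/-- the linear form of a gate -/
noncomputable def EEp (D : Data k) (y : (I₁ ⊕ I₂) × Fin 3 → L) :
    I₁ ⊕ I₂ → ↥(TY D y) →ₗ[L] L :=
  Sum.elim
    (fun i => (prj (Sum.inl i, 0) + prj (Sum.inl i, 1) - prj (Sum.inl i, 2)) ∘ₗ
      (TY D y).subtype)
    (fun i => (y (Sum.inr i, 1) • prj (Sum.inr i, 0) +
      y (Sum.inr i, 0) • prj (Sum.inr i, 1) - prj (Sum.inr i, 2)) ∘ₗ (TY D y).subtype)

theorem EEp_apply (D : Data k) (y : (I₁ ⊕ I₂) × Fin 3 → L) (s : I₁ ⊕ I₂) (η : ↥(TY D y)) :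
    EEp D y s η = gForm y (η : (I₁ ⊕ I₂) × Fin 3 → L) s := by
  rcases s with s | s <;> rfl

/-- on a clean tuple the differentials are functions of the values -/
theorem TY_congr [CharZero k] {M : Type} (D : Data k) (hD : Good D) (y : M → L)
    (hy : Clean D y) {η : M → L} (hη : η ∈ TY D y) {m m' : M} (h : y m = y m') : η m = η m' := by
  classical
  by_cases hm : m = m'
  · rw [hm]
  have h1 : Rel D (y m) (y m') := by
    rw [h]
    exact (hD.1 L).1 _
  have h2 := hy.2 m m' hm h1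
  obtain ⟨δ, hδ⟩ := exists_der_ind (k := k) (fun _ : Unit => y m)
    ((algebraicIndependent_unique_type_iff).2 h2) (fun _ => 1)
  have h3 := hη m m' h1 h2 δ
  rw [← h, hδ ()] at h3
  simpa using h3

end forms

/-- The inclusion of the selected gates. -/
def emb {I₁ I₂ : Type} (κ : Finset (I₁ ⊕ I₂)) :
    ({i : I₁ // (Sum.inl i : I₁ ⊕ I₂) ∈ κ} ⊕ {i : I₂ // (Sum.inr i : I₁ ⊕ I₂) ∈ κ}) × Fin 3 →
      (I₁ ⊕ I₂) × Fin 3 :=
  fun m => (Sum.map Subtype.val Subtype.val m.1, m.2)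

theorem emb_injective {I₁ I₂ : Type} (κ : Finset (I₁ ⊕ I₂)) : Function.Injective (emb κ) := by
  rintro ⟨a, b⟩ ⟨a', b'⟩ h
  have h1 : Sum.map Subtype.val Subtype.val a = Sum.map Subtype.val Subtype.val a' :=
    congrArg Prod.fst h
  have h2 : b = b' := congrArg Prod.snd h
  have h3 : a = a' := (Sum.map_injective.2 ⟨Subtype.val_injective, Subtype.val_injective⟩) h1
  rw [h2, h3]

theorem t_Cp (hENC : S_ENC) (hINC : S_INC) (hTDINC : S_TDINC) (hSTAR : S_STARp)
    (hTYDIM : S_TYDIM) (hSEL : S_SEL)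
    (k : Type) [Field k] [CharZero k] [IsAlgClosed k] [Algebra.IsAlgebraic ℚ k] (D : Data k)
    (hD : Good D) (hH : HHp k D) : PPt k D := by
  classical
  intro J _ L _ _ x t hx ht
  have hL : CharZero L := charZero_of_injective_algebraMap (algebraMap k L).injective
  obtain ⟨B, hBc, hBi, hBa⟩ := exists_basis (k := k) x
  obtain ⟨I₁, I₂, _, _, y, hyS, hyC, hq, hocc, hsolve⟩ := hENC k L J D hD x t B hx ht hBa
  choose q hq using hq
  choose pos hpos using hocc
  obtain ⟨κ, hκ1, hκ2⟩ := hSEL L (↥(TY D y)) (I₁ ⊕ I₂) (EEp D y)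
  -- the number of the selected gates
  have hcount : isoRk D y ≤ Fintype.card {i : I₁ // (Sum.inl i : I₁ ⊕ I₂) ∈ κ} +
      Fintype.card {i : I₂ // (Sum.inr i : I₁ ⊕ I₂) ∈ κ} + td k (ext x t) := by
    have h1 : B.card + 1 ≤ td k (ext x t) := by
      have hz : AlgebraicIndependent k (fun o : Option B => o.elim t (fun b => x b)) := by
        refine (hBi.option_iff_transcendental t).2 ?_
        intro hcon
        refine ht (alg_mono ?_ hcon)
        rintro _ ⟨b, rfl⟩
        exact ⟨b.1, rfl⟩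
      have h2 := card_le_td (x := ext x t) hz (by
        rintro (_ | b)
        · exact alg_self ⟨none, rfl⟩
        · exact alg_self ⟨some b.1, rfl⟩)
      rw [Fintype.card_option, Fintype.card_coe] at h2
      exact h2
    let g1 : ↥(TY D y) →ₗ[L] ({i : I₁ // (Sum.inl i : I₁ ⊕ I₂) ∈ κ} → L) :=
      LinearMap.pi fun s => EEp D y (Sum.inl s.1)
    let g2 : ↥(TY D y) →ₗ[L] ({i : I₂ // (Sum.inr i : I₁ ⊕ I₂) ∈ κ} → L) :=
      LinearMap.pi fun s => EEp D y (Sum.inr s.1)
    let g3 : ↥(TY D y) →ₗ[L] (Option B → L) := LinearMap.pi fun o : Option B =>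
      (LinearMap.proj (pos (o.map Subtype.val))) ∘ₗ (TY D y).subtype
    have h2 : Function.Injective ((g1.prod g2).prod g3) := by
      rw [← LinearMap.ker_eq_bot, Submodule.eq_bot_iff]
      intro v hv
      have hv0 : ((g1 v, g2 v), g3 v) = 0 := LinearMap.mem_ker.1 hv
      rw [Prod.mk_eq_zero, Prod.mk_eq_zero] at hv0
      have h3 : ∀ s ∈ κ, EEp D y s v = 0 := by
        rintro (s | s) hs
        · exact congrFun hv0.1.1 ⟨s, hs⟩
        · exact congrFun hv0.1.2 ⟨s, hs⟩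
      have h4 := hκ1 v h3
      let ηh : L → L := fun e => if h : ∃ m, y m = e then (v : (I₁ ⊕ I₂) × Fin 3 → L) h.choose
        else 0
      have hηh : ∀ m, ηh (y m) = (v : (I₁ ⊕ I₂) × Fin 3 → L) m := by
        intro m
        have h5 : ∃ m', y m' = y m := ⟨m, rfl⟩
        change (if h : ∃ m', y m' = y m then (v : (I₁ ⊕ I₂) × Fin 3 → L) h.choose else 0) = _
        rw [dif_pos h5]
        exact TY_congr D hD y hyC v.2 h5.choose_spec
      have h6 : ∀ o : Option B, ηh (ext x t (o.map Subtype.val)) = 0 := by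
        intro o
        rw [← hpos, hηh]
        exact congrFun hv0.2 o
      have h5 := hsolve ηh (fun i => by
          rw [hηh, hηh, hηh]
          have h7 := h4 (Sum.inl i)
          rw [EEp_apply] at h7
          exact (sub_eq_zero.1 h7).symm) (fun i => by
          rw [hηh, hηh, hηh]
          have h7 := h4 (Sum.inr i)
          rw [EEp_apply] at h7
          exact (sub_eq_zero.1 h7).symm) (fun b hb => h6 (some ⟨b, hb⟩)) (h6 none)
      refine Subtype.ext (funext fun m => ?_)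
      rw [← hηh m]
      exact h5 m
    have h5 := LinearMap.finrank_le_finrank_of_injective h2
    rw [Module.finrank_prod, Module.finrank_prod, Module.finrank_pi,
      Module.finrank_pi, Module.finrank_pi, Fintype.card_option, Fintype.card_coe,
      hTYDIM k L _ D hD y hyC] at h5
    omega
  -- the selected gates
  have hyκ : OnS (y ∘ emb κ) := ⟨fun i => hyS.1 i.1, fun i => hyS.2 i.1⟩
  obtain ⟨𝒜, hfin, hA1, hA2⟩ := hH {i : I₁ // (Sum.inl i : I₁ ⊕ I₂) ∈ κ}
    {i : I₂ // (Sum.inr i : I₁ ⊕ I₂) ∈ κ}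
  have hnot : ∀ p ∈ 𝒜, ∃ f ∈ p, aeval (y ∘ emb κ) f ≠ 0 := by
    intro p hp
    by_contra hcon
    push Not at hcon
    obtain ⟨F, _, _, a, ha1, ha2, ha3⟩ := hA1 p hp
    have hs : Spp k a (y ∘ emb κ) := fun f hf => hcon f ((ha3 f).2 hf)
    have h1 := hSTAR k L F _ _ D hD (y ∘ emb κ) a ha1 hs
      (clean_comp D y (emb κ) (emb_injective κ) hyC) (by
        intro c hc
        obtain ⟨c', hc1, hc2⟩ := sum_kappa (fun s v => EEp D y s v) κ
          (fun s => c (Sum.inl s)) (fun s => c (Sum.inr s))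
        obtain ⟨h3, h4⟩ := hc2 (hκ2 c' fun v => by
          rw [hc1 v]
          have h5 := hc (v.1 ∘ emb κ) (mem_TY_comp D y (emb κ) v.2)
          rw [Fintype.sum_sum_type] at h5
          rw [← h5]
          congr 1)
        funext s
        rcases s with s | s
        · exact congrFun h3 s
        · exact congrFun h4 s)
    omega
  choose! fp hfp1 hfp2 using hnot
  have hev : ∀ {L' : Type} [Field L'] [Algebra k L'] (X' : Option J → L')
      (f : MvPolynomial (({i : I₁ // (Sum.inl i : I₁ ⊕ I₂) ∈ κ} ⊕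
        {i : I₂ // (Sum.inr i : I₁ ⊕ I₂) ∈ κ}) × Fin 3) k),
      aeval X' (bind₁ (q ∘ emb κ) f) = aeval ((fun m => aeval X' (q m)) ∘ emb κ) f := by
    intro L' _ _ X' f
    rw [aeval_bind₁]
    rfl
  have hyq : (fun m => aeval (ext x t) (q m)) = y := funext hq
  refine ⟨∏ p ∈ hfin.toFinset, bind₁ (q ∘ emb κ) (fp p), ?_, ?_⟩
  · rw [map_prod]
    refine Finset.prod_ne_zero_iff.2 fun p hp => ?_
    rw [hev, hyq]
    exact hfp2 p (hfin.mem_toFinset.1 hp)
  · intro L' _ _ x' t' hs hlt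
    obtain ⟨y', hy'⟩ : ∃ y' : (I₁ ⊕ I₂) × Fin 3 → L', y' = fun m => aeval (ext x' t') (q m) :=
      ⟨_, rfl⟩
    have hsy : Spp k y y' := by
      intro f hf
      have h1 : aeval (ext x t) (bind₁ q f) = 0 := by
        rw [aeval_bind₁, hyq]
        exact hf
      have h2 := hs _ h1
      rw [aeval_bind₁, ← hy'] at h2
      exact h2
    have hy'S : OnS (y' ∘ emb κ) := by
      refine ⟨fun i => ?_, fun i => ?_⟩
      · have h1 := hsy (X (Sum.inl i.1, 0) + X (Sum.inl i.1, 1) - X (Sum.inl i.1, 2)) (by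
          rw [map_sub, map_add, aeval_X, aeval_X, aeval_X, hyS.1 i.1, sub_self])
        rw [map_sub, map_add, aeval_X, aeval_X, aeval_X, sub_eq_zero] at h1
        exact h1
      · have h1 := hsy (X (Sum.inr i.1, 0) * X (Sum.inr i.1, 1) - X (Sum.inr i.1, 2)) (by
          rw [map_sub, map_mul, aeval_X, aeval_X, aeval_X, hyS.2 i.1, sub_self])
        rw [map_sub, map_mul, aeval_X, aeval_X, aeval_X, sub_eq_zero] at h1
        exact h1
    have e1 : y ∘ pos = ext x t := funext hpos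
    have e2 : y' ∘ pos = ext x' t' := by
      funext o
      have h1 := hs (q (pos o) - X o) (by rw [map_sub, aeval_X, hq, hpos, sub_self])
      rw [map_sub, aeval_X, sub_eq_zero] at h1
      rw [Function.comp_apply, hy']
      exact h1
    have n1 := hINC k L L' _ (Option J) D hD y y' pos hsy
    rw [e1, e2] at n1
    have n2 : td k (ext x' t') ≤ td k y' := by
      refine td_le_of_alg fun o => alg_self ⟨pos o, ?_⟩
      exact congrFun e2 o
    have n3 := hTDINC k L' _ _ D hD y' (emb κ)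
    have n4 : isoRk D (y' ∘ emb κ) < Fintype.card {i : I₁ // (Sum.inl i : I₁ ⊕ I₂) ∈ κ} +
        Fintype.card {i : I₂ // (Sum.inr i : I₁ ⊕ I₂) ∈ κ} + td k (y' ∘ emb κ) := by
      omega
    obtain ⟨p, hp, hpf⟩ := hA2 L' (y' ∘ emb κ) hy'S n4
    rw [map_prod]
    refine Finset.prod_eq_zero (hfin.mem_toFinset.2 hp) ?_
    rw [hev, ← hy']
    exact hpf _ (hfp1 p hp)

end Pool.Agent.Y645.UP
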