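import Pool.Agent.Y645.UP.FinP

/-!
# Pink's form of the conjecture: statement
-/

namespace Pool.Agent.Y645.UP

open MvPolynomial Module Pool.Agent.Y645.UL Pool.Agent.Y645.UM

/-- Pink's form: if the points of `Z` which lie on special subvarieties of dimension at most `d`
are Zariski dense in `Z`, then the defect of `Z` is at most `d`. -/
def PinkP (k : Type) [Field k] (D : Data k) : Prop :=
  ∀ (J : Type) [Fintype J] (Z : Set (J → k)) (d : ℕ), IsSubvarP Z →
    (∀ f : MvPolynomial J k, (∀ x ∈ Z, spdP D {x} ≤ (d : ℤ) → eval x f = 0) →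
      ∀ x ∈ Z, eval x f = 0) →
    spdP D Z - (dimP Z : ℤ) ≤ (d : ℤ)

def S_PINK : Prop := ∀ (k : Type) [Field k] [CharZero k] [IsAlgClosed k] (D : Data k), Good D →
  (PinkP k D ↔ ∀ (J : Type) [Fintype J] (V : Set (J → k)) (δ : ℤ), IsClosedP V → FinDefP D V δ)

end Pool.Agent.Y645.UP
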