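import Pool.Agent.Y645.UM.Stm

/-!
# Definitions and statements of the single steps for `Y(1)^n` (project UP)
-/

namespace Pool.Agent.Y645.UP

open MvPolynomial Module Pool.Agent.Y645.UL Pool.Agent.Y645.UM

section defs

variable {k : Type} [Field k] {L J : Type} [Field L] [Algebra k L]

variable (k) in
/-- specialization of points -/
def Spp {L' : Type} [Field L'] [Algebra k L'] (x : J → L) (x' : J → L') : Prop :=
  ∀ f : MvPolynomial J k, aeval x f = 0 → aeval x' f = 0

/-- the tuple with one more coordinate -/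
def ext (x : J → L) (t : L) : Option J → L := fun o => o.elim t x

/-- The point is on the product of the surfaces `x + y = z` and `x y = z`. -/
def OnS {I₁ I₂ : Type} (y : (I₁ ⊕ I₂) × Fin 3 → L) : Prop :=
  (∀ i, y (Sum.inl i, 0) + y (Sum.inl i, 1) = y (Sum.inl i, 2)) ∧
    ∀ i, y (Sum.inr i, 0) * y (Sum.inr i, 1) = y (Sum.inr i, 2)

/-- the differentials of the equations -/
def gForm {I₁ I₂ : Type} (y η : (I₁ ⊕ I₂) × Fin 3 → L) : I₁ ⊕ I₂ → L :=
  Sum.elim (fun i => η (Sum.inl i, 0) + η (Sum.inl i, 1) - η (Sum.inl i, 2))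
    (fun i => y (Sum.inr i, 1) * η (Sum.inr i, 0) + y (Sum.inr i, 0) * η (Sum.inr i, 1) -
      η (Sum.inr i, 2))

end defs

/-- The points of smaller defect are not dense in any variety. -/
def PPp (k : Type) [Field k] (D : Data k) : Prop :=
  ∀ (J : Type) [Fintype J] (L : Type) [Field L] [Algebra k L] (x : J → L),
    ∃ g : MvPolynomial J k, aeval x g ≠ 0 ∧
      ∀ (L' : Type) [Field L'] [Algebra k L'] (x' : J → L'), Spp k x x' →
        isoRk D x' + td k x < isoRk D x + td k x' → aeval x' g = 0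

/-- The same for clean tuples. -/
def PPpc (k : Type) [Field k] (D : Data k) : Prop :=
  ∀ (J : Type) [Fintype J] (L : Type) [Field L] [Algebra k L] (x : J → L), Clean D x →
    ∃ g : MvPolynomial J k, aeval x g ≠ 0 ∧
      ∀ (L' : Type) [Field L'] [Algebra k L'] (x' : J → L'), Spp k x x' →
        isoRk D x' + td k x < isoRk D x + td k x' → aeval x' g = 0

/-- The same for clean tuples with one more transcendental coordinate. -/
def PPt (k : Type) [Field k] (D : Data k) : Prop :=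
  ∀ (J : Type) [Fintype J] (L : Type) [Field L] [Algebra k L] (x : J → L) (t : L), Clean D x →
    Transcendental (Algebra.adjoin k (Set.range x)) t →
    ∃ g : MvPolynomial (Option J) k, aeval (ext x t) g ≠ 0 ∧
      ∀ (L' : Type) [Field L'] [Algebra k L'] (x' : J → L') (t' : L'),
        Spp k (ext x t) (ext x' t') →
        isoRk D (ext x' t') + td k (ext x t) < isoRk D (ext x t) + td k (ext x' t') →
        aeval (ext x' t') g = 0

def S_DEDUPp : Prop := ∀ (k : Type) [Field k] [IsAlgClosed k] (D : Data k),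
  Good D → PPpc k D → PPp k D

def S_MASK : Prop := ∀ (k : Type) [Field k] (D : Data k), Good D → PPt k D → PPpc k D

/-- the increments of the isogeny rank decrease under specialization -/
def S_INC : Prop := ∀ (k L L' M J : Type) [Field k] [Field L] [Algebra k L] [Field L']
  [Algebra k L'] [Fintype M] [Fintype J] (D : Data k), Good D →
  ∀ (y : M → L) (y' : M → L') (e : J → M), Spp k y y' →
    isoRk D y' + isoRk D (y ∘ e) ≤ isoRk D y + isoRk D (y' ∘ e)

/-- the increments of the transcendence degree are at most the increments of the isogeny rank -/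
def S_TDINC : Prop := ∀ (k L M J : Type) [Field k] [Field L] [Algebra k L] [Fintype M] [Fintype J]
  (D : Data k), Good D → ∀ (y : M → L) (e : J → M),
    td k y + isoRk D (y ∘ e) ≤ isoRk D y + td k (y ∘ e)

def S_Bp : Prop := ∀ (k₀ k : Type) [Field k₀] [Field k] [Algebra k₀ k] (D : Data k₀),
  Good D → PPp k₀ D → PPp k (D.map k)

/-! ## Circuits -/

section circuits

variable {L : Type} [Field L]

/-- The function `η` satisfies the rule of the sum for the pairs in `σ₁` and the rule of the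
product for the pairs in `σ₂`. -/
def Sat (σ₁ σ₂ : Set (L × L)) (η : L → L) : Prop :=
  (∀ p ∈ σ₁, η (p.1 + p.2) = η p.1 + η p.2) ∧
    ∀ p ∈ σ₂, η (p.1 * p.2) = p.2 * η p.1 + p.1 * η p.2

/-- all the values at the gates -/
def vals (σ₁ σ₂ : Set (L × L)) : Set L :=
  {e | (∃ p ∈ σ₁, e = p.1 ∨ e = p.2 ∨ e = p.1 + p.2) ∨
    ∃ p ∈ σ₂, e = p.1 ∨ e = p.2 ∨ e = p.1 * p.2}

/-- the value of a nonconstant polynomial at `t` -/
def TT {k : Type} [Field k] [Algebra k L] (R : Subalgebra k L) (t e : L) : Prop :=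
  ∃ r : Polynomial R, 0 < r.natDegree ∧ Polynomial.aeval t r = e

end circuits

/-- integral polynomials by gates whose values are not constant in `t` -/
def S_ENC1 : Prop := ∀ (k L ι : Type) [Field k] [CharZero k] [Field L] [Algebra k L] [Fintype ι]
  (R : Subalgebra k L) (t : L) (v : ι → L), (∀ i, v i ∈ R) → ∀ f : MvPolynomial ι ℤ,
    ∃ σ₁ σ₂ : Set (L × L), σ₁.Finite ∧ σ₂.Finite ∧ (∀ e ∈ vals σ₁ σ₂, TT R t e) ∧
      ∀ η : L → L, Sat σ₁ σ₂ η →
        (η (t + aeval v f) - η t = ∑ i, aeval v (pderiv i f) * (η (t + v i) - η t)) ∧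
        ((∀ i, η (t + v i) = 0) → η t = 0 → ∀ e ∈ vals σ₁ σ₂, η e = 0)

/-- a circuit for an algebraic tuple -/
def S_ENC2 : Prop := ∀ (k L J : Type) [Field k] [CharZero k] [Algebra.IsAlgebraic ℚ k] [Field L]
  [Algebra k L] [Fintype J] (x : J → L) (t : L) (B : Finset J),
  (∀ j, IsAlgebraic (Algebra.adjoin k (x '' (B : Set J))) (x j)) →
    ∃ σ₁ σ₂ : Set (L × L), σ₁.Finite ∧ σ₂.Finite ∧
      (∀ e ∈ vals σ₁ σ₂, TT (Algebra.adjoin k (Set.range x)) t e) ∧
      ∀ η : L → L, Sat σ₁ σ₂ η → (∀ b ∈ B, η (t + x b) = 0) → η t = 0 →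
        (∀ j, η (t + x j) = 0) ∧ ∀ e ∈ vals σ₁ σ₂, η e = 0

/-- the gates of a clean tuple and a transcendental element -/
def S_ENC : Prop := ∀ (k L J : Type) [Field k] [CharZero k] [IsAlgClosed k]
  [Algebra.IsAlgebraic ℚ k] [Field L] [Algebra k L] [Fintype J] (D : Data k), Good D →
  ∀ (x : J → L) (t : L) (B : Finset J), Clean D x →
    Transcendental (Algebra.adjoin k (Set.range x)) t →
    (∀ j, IsAlgebraic (Algebra.adjoin k (x '' (B : Set J))) (x j)) →
    ∃ (I₁ I₂ : Type) (_ : Fintype I₁) (_ : Fintype I₂) (y : (I₁ ⊕ I₂) × Fin 3 → L),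
      OnS y ∧ Clean D y ∧ (∀ m, ∃ q : MvPolynomial (Option J) k, aeval (ext x t) q = y m) ∧
      (∀ o : Option J, ∃ m, y m = ext x t o) ∧
      ∀ η : L → L,
        (∀ i, η (y (Sum.inl i, 2)) = η (y (Sum.inl i, 0)) + η (y (Sum.inl i, 1))) →
        (∀ i, η (y (Sum.inr i, 2)) = y (Sum.inr i, 1) * η (y (Sum.inr i, 0)) +
          y (Sum.inr i, 0) * η (y (Sum.inr i, 1))) →
        (∀ b ∈ B, η (x b) = 0) → η t = 0 → ∀ m, η (y m) = 0

/-! ## The rank of a family of atypical points -/

def S_STARp : Prop := ∀ (k L F I₁ I₂ : Type) [Field k] [CharZero k] [IsAlgClosed k] [Field L]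
  [Field F] [Algebra k L] [Algebra k F] [Fintype I₁] [Fintype I₂] (D : Data k), Good D →
  ∀ (y : (I₁ ⊕ I₂) × Fin 3 → L) (a : (I₁ ⊕ I₂) × Fin 3 → F), OnS a → Spp k a y → Clean D y →
    (∀ c : I₁ ⊕ I₂ → L, (∀ η ∈ TY D y, ∑ s, c s * gForm y η s = 0) → c = 0) →
    td k a + (Fintype.card I₁ + Fintype.card I₂) ≤ isoRk D a

/-! ## Ideals -/

/-- The ideals of the subvarieties of defect at most `δ`. -/
def Ptp (k J : Type) [Field k] [Fintype J] (D : Data k) (δ : ℤ)
    (p : Ideal (MvPolynomial J k)) : Prop :=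
  ∃ (L : Type) (_ : Field L) (_ : Algebra k L) (x : J → L),
    (∀ f, f ∈ p ↔ aeval x f = 0) ∧ (isoRk D x : ℤ) - (td k x : ℤ) ≤ δ

def AAp (k : Type) [Field k] (D : Data k) : Prop :=
  ∀ (J : Type) [Fintype J] (δ : ℤ) (I₀ : Ideal (MvPolynomial J k)),
    ∃ Q : Set (Ideal (MvPolynomial J k)), Q.Finite ∧ (∀ q ∈ Q, I₀ ≤ q ∧ Ptp k J D δ q) ∧
      ∀ p, I₀ ≤ p → Ptp k J D δ p → ∃ q ∈ Q, q ≤ p

def S_GENp : Prop := ∀ (k J : Type) [Field k] [Fintype J] (p : Ideal (MvPolynomial J k)),
  p.IsPrime → ∃ (L : Type) (_ : Field L) (_ : Algebra k L) (x : J → L),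
      ∀ f, f ∈ p ↔ aeval x f = 0

def S_Ap : Prop := ∀ (k : Type) [Field k] (D : Data k), PPp k D → AAp k D

/-! ## Closed points and subvarieties -/

def S_TORp : Prop := ∀ (k F J : Type) [Field k] [CharZero k] [IsAlgClosed k] [Field F]
  [Algebra k F] [Fintype J] (D : Data k), Good D →
  ∀ (a : J → F) (f : MvPolynomial J k), aeval a f ≠ 0 →
    ∃ x : J → k, Spp k a x ∧ eval x f ≠ 0 ∧ isoRk D x + td k a ≤ isoRk D a

section sets

variable {k J : Type} [Field k]

/-- The ideal of the polynomials which vanish on `A`. -/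
def vanp (A : Set (J → k)) : Ideal (MvPolynomial J k) where
  carrier := {f | ∀ p ∈ A, eval p f = 0}
  add_mem' := by
    intro f g hf hg x hx
    rw [map_add, hf x hx, hg x hx, add_zero]
  zero_mem' := by
    intro x _
    exact map_zero _
  smul_mem' := by
    intro c f hf x hx
    rw [smul_eq_mul, map_mul, hf x hx, mul_zero]

/-- `A` is Zariski closed. -/
def IsClosedP (A : Set (J → k)) : Prop :=
  ∃ S : Set (MvPolynomial J k), A = {p | ∀ f ∈ S, eval p f = 0}

/-- `A` is an irreducible closed subset. -/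
def IsSubvarP (A : Set (J → k)) : Prop := IsClosedP A ∧ (vanp A).IsPrime

/-- The dimension. -/
noncomputable def dimP (A : Set (J → k)) : ℕ :=
  Cardinal.toNat (Algebra.trdeg k (MvPolynomial J k ⧸ vanp A))

/-- The number of isogeny classes of the coordinates of `A` which are not special. -/
noncomputable def isoSetP (R : ℕ → k → k → Prop) (C : Set k) (A : Set (J → k)) : ℕ :=
  Nat.card (Quot (fun i j : {i : J // ¬ ∃ c ∈ C, ∀ p ∈ A, p i = c} =>
    ∃ N, 0 < N ∧ ∀ p ∈ A, R N (p i) (p j)))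

end sets

/-- the closed points which satisfy the equations of a point -/
def ZZp (k : Type) {L J : Type} [Field k] [Field L] [Algebra k L] (x : J → L) : Set (J → k) :=
  {p | ∀ f : MvPolynomial J k, aeval x f = 0 → eval p f = 0}

def S_NULLp : Prop := ∀ (k L J : Type) [Field k] [IsAlgClosed k] [Field L] [Algebra k L]
  [Fintype J] (x : J → L) (f : MvPolynomial J k), f ∈ vanp (ZZp k x) ↔ aeval x f = 0

def S_DIMp : Prop := ∀ (k L J : Type) [Field k] [Field L] [Algebra k L]
  [Fintype J] (x : J → L) (A : Set (J → k)),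
    (∀ f : MvPolynomial J k, f ∈ vanp A ↔ aeval x f = 0) → dimP A = td k x

def S_ISOp : Prop := ∀ (k L J : Type) [Field k] [Field L] [Algebra k L]
  [Fintype J] (D : Data k) (x : J → L) (A : Set (J → k)),
    (∀ f : MvPolynomial J k, f ∈ vanp A ↔ aeval x f = 0) →
    isoSetP (fun N y z => aeval ![y, z] (D.Φ N) = 0) D.C A = isoRk D x

end Pool.Agent.Y645.UP
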